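import Pool.Agent.H783.HM.Sharp

/-!
# Euler characteristic and volume of Einstein manifolds with curvature in a convex cone

`gbc e R` is the Gauss–Bonnet–Chern integrand of an algebraic curvature tensor `R` in dimension `2 m`
(`e` an orthonormal basis), `shiftT R t = R + t (constant curvature one)`, `scal e R` the scalar
curvature, `Einstein e R κ` the condition `Ric = (2 m - 1) κ`, and `planes e k` the curvature tensor of
a product of `m` planes with curvatures `-k_1, …, -k_m`.

`NegCone R` says that `R` is a finite sum of tensors `S` of two kinds: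

* `S = ∑ β_k ∧ β_k - b ∧ b` for symmetric forms such that `(b(x,x), β_1(x,x), …, β_N(x,x))` lies in
  the closed future light cone of `ℝ^(1,N)` for all `x` (`CausalT`, any `N`);
* `S = f^* T` for a linear map `f` and a tensor `T` whose curvature operator of the second kind is
  nonpositive on the symmetric tensors which are traceless with respect to some inner product
  (`SecondPull`).

It contains the curvature tensors of products of planes of nonpositive curvature (`Planes`), and the Gauss
equation of submanifolds of any codimension with bounded second fundamental form does not leave it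
(`Submanifolds`). (Remark, not formalised: it contains all `-∑ ω_a ⊗ ω_a` with decomposable two-forms
`ω_a`, for instance the curvature tensors of real and complex hyperbolic spaces.)

Results:

* `Spectrum`: for `R` in the cone there are `k_1, …, k_m ≥ 0` such that the product of planes `planes e k`
  has the same scalar curvature and, for every real `t`, the same integrand `gbc (R + t)` as `R`, that
  is, the same Gauss–Bonnet curvatures of all orders.
* `Comparison`: if `R + δ` is in the cone, `δ ≥ 0`, then `(-1)^m gbc R` is at most `upGB`, its value for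
  the tensor of constant curvature `-δ` plus a product of planes of equal curvature with the same scalar
  curvature, and at least `lowGB`, its value for constant curvature `-δ` plus one plane.
* `EinsteinNegative`, `EinsteinPositive`: for Einstein metrics with `Ric = ∓(2 m - 1) κ` in this class
  the Euler characteristic lies between two explicit multiples of the volume; the upper bound is
  attained. For `δ = 0` it is `((2 m - 1) κ / (2 π))^m vol`. In the positive case with the volume
  bound of Bishop: `χ ≤ 2^(m+1) (2 m - 1)^m m! / (2 m)!`, which is `16.6…` in dimension six.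
* `MinimalVolume`: an Einstein metric in the cone has at least the volume of every metric which is
  locally a product of planes of curvature `-(2 m - 1) κ` and has the same Einstein constant and the same
  Euler characteristic.
* `ScalarIntegral`: for all metrics in the cone, Einstein or not, `|χ| ≤ ∫ (-scal / (4 π m))^m`.

Proof. For a tensor `∑_o w_o B_o ⊗ B_o` of forms with values in a product of light cones the polynomial
`det (x_0 + ∑ x_o B_o)` is real stable, and by the Heilmann–Lieb theorem for light cones
(`Pool.Agent.H783.HL`) so is its image under `exp (-lap_w)`. Its restriction to the complex line through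
the identity is `∑ (-1)^j C_j z^(2(m-j))` with only real zeros, so `C_j` are the elementary symmetric
functions of nonnegative numbers; and the coefficients of `s ↦ (-1)^m gbc (R - s)` are
`C_j (2m-2j)! / (m-j)! / (4π)^m`. The bounds are Maclaurin's inequalities for these numbers.
-/

set_option autoImplicit false

namespace Pool.Agent.Results.MP_ebfab8_gt.EinsteinEulerVolume

open MeasureTheory
open Pool.Agent.H783.HL Pool.Agent.H783.HM
open Pool.Agent.W666.GB (gbc scal roundGB CurvField)
open Pool.Agent.W669.HD (negT)

/-- The Gauss–Bonnet curvatures of a tensor of the cone are those of a product of planes. -/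
def Spectrum : Prop :=
  ∀ (m : ℕ) (V : Type) [NormedAddCommGroup V] [InnerProductSpace ℝ V]
    (e : OrthonormalBasis (Fin m × Bool) ℝ V) (R : V → V → V → V → ℝ), 1 ≤ m → NegCone R →
    ∃ k : Fin m → ℝ, (∀ a, 0 ≤ k a) ∧ scal e R = scal e (planes e k) ∧
      ∀ t, gbc e (shiftT R t) = gbc e (shiftT (planes e k) t)

/-- Products of planes: they lie in the cone, and their scalar curvature and integrand. -/
def Planes : Prop :=
  ∀ (m : ℕ) (V : Type) [NormedAddCommGroup V] [InnerProductSpace ℝ V]
    (e : OrthonormalBasis (Fin m × Bool) ℝ V) (k : Fin m → ℝ), (∀ a, 0 ≤ k a) →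
    NegCone (planes e k) ∧ scal e (planes e k) = - 2 * ∑ a, k a ∧
      (-1) ^ m * gbc e (planes e k) = ∏ a, (k a / (2 * Real.pi))

/-- The sharp pointwise bounds. The upper bound is the value for the sum of a product of planes of
curvature `-a` and constant curvature `-δ`, where `a` is determined by the scalar curvature. -/
def Comparison : Prop :=
  ∀ (m : ℕ) (V : Type) [NormedAddCommGroup V] [InnerProductSpace ℝ V]
    (e : OrthonormalBasis (Fin m × Bool) ℝ V) (R : V → V → V → V → ℝ) (δ a : ℝ), 1 ≤ m → 0 ≤ δ →
    NegCone (shiftT R δ) → - scal e R = 2 * m * a + 2 * m * (2 * m - 1) * δ →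
    0 ≤ a ∧ lowGB m a δ ≤ (-1) ^ m * gbc e R ∧ (-1) ^ m * gbc e R ≤ upGB m a δ ∧
      upGB m a δ = (-1) ^ m * gbc e (shiftT (planes e fun _ => a) (-δ))

/-- Submanifolds of any codimension: `V` is the tangent space of the ambient manifold and `R` its
curvature tensor, `E` the tangent space of the submanifold and `β` its second fundamental form. -/
def Submanifolds : Prop :=
  ∀ (V W : Type) [NormedAddCommGroup V] [InnerProductSpace ℝ V]
    [NormedAddCommGroup W] [InnerProductSpace ℝ W] [FiniteDimensional ℝ W] (E : Submodule ℝ V)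
    (R : V → V → V → V → ℝ) (β : E → E → W) (c δ : ℝ), δ ≤ c → NegCone (shiftT R c) →
    SecondFF β → (∀ x, ‖β x x‖ ^ 2 ≤ (c - δ) * ‖x‖ ^ 4) →
    NegCone (shiftT (fun x y z w : E => R x y z w +
      inner ℝ (β x z) (β y w) - inner ℝ (β x w) (β y z)) δ)

/-- Einstein metrics of negative scalar curvature: the Euler characteristic lies between two multiples
of the volume. -/
def EinsteinNegative : Prop :=
  ∀ (m : ℕ) (M : Type) [MeasurableSpace M] (μ : Measure M) [IsFiniteMeasure μ]
    (K : CurvField m M) (κ δ : ℝ), 1 ≤ m → Integrable K.gb μ → 0 ≤ δ →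
    (∀ p, NegCone (shiftT (K.R p) δ) ∧ Einstein (K.e p) (K.R p) (-κ)) →
    roundGB m 1 * (δ ^ (m - 1) * (m * κ - (m - 1) * δ)) * μ.real Set.univ ≤
        (-1) ^ m * ∫ p, K.gb p ∂μ ∧
      (-1) ^ m * ∫ p, K.gb p ∂μ ≤ upGB m ((2 * m - 1) * (κ - δ)) δ * μ.real Set.univ

/-- Einstein metrics of positive scalar curvature. -/
def EinsteinPositive : Prop :=
  ∀ (m : ℕ) (M : Type) [MeasurableSpace M] (μ : Measure M) [IsFiniteMeasure μ]
    (K : CurvField m M) (κ δ : ℝ), 1 ≤ m → Integrable K.gb μ → 0 ≤ δ →
    (∀ p, NegCone (shiftT (negT (K.R p)) δ) ∧ Einstein (K.e p) (K.R p) κ) →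
    roundGB m 1 * (δ ^ (m - 1) * (m * κ - (m - 1) * δ)) * μ.real Set.univ ≤ ∫ p, K.gb p ∂μ ∧
      ∫ p, K.gb p ∂μ ≤ upGB m ((2 * m - 1) * (κ - δ)) δ * μ.real Set.univ

/-- The constant for `δ = 0`. -/
def ConstantZero : Prop :=
  ∀ (m : ℕ) (a : ℝ), 1 ≤ m → upGB m a 0 = (a / (2 * Real.pi)) ^ m

/-- Einstein metrics of positive scalar curvature whose volume is at most the volume of the round
sphere with the same Ricci curvature (this is the theorem of Bishop). -/
def EinsteinBishop : Prop :=
  ∀ (m : ℕ) (M : Type) [MeasurableSpace M] (μ : Measure M) [IsFiniteMeasure μ]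
    (K : CurvField m M) (κ : ℝ), 1 ≤ m → Integrable K.gb μ → 0 < κ →
    (∀ p, NegCone (negT (K.R p)) ∧ Einstein (K.e p) (K.R p) κ) →
    κ ^ m * μ.real Set.univ ≤ 2 ^ (2 * m + 1) * Real.pi ^ m * m.factorial / (2 * m).factorial →
    ∫ p, K.gb p ∂μ ≤ 2 ^ (m + 1) * (2 * m - 1) ^ m * m.factorial / (2 * m).factorial

/-- Products of planes have minimal volume. -/
def MinimalVolume : Prop :=
  ∀ (m : ℕ) (M M' : Type) [MeasurableSpace M] [MeasurableSpace M'] (μ : Measure M)
    [IsFiniteMeasure μ] (μ' : Measure M') [IsFiniteMeasure μ'] (K : CurvField m M)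
    (K' : CurvField m M') (κ : ℝ), 1 ≤ m → Integrable K.gb μ → 0 < κ →
    (∀ p, NegCone (K.R p) ∧ Einstein (K.e p) (K.R p) (-κ)) →
    (∀ p, K'.R p = planes (K'.e p) fun _ => (2 * m - 1) * κ) →
    ∫ p, K.gb p ∂μ = ∫ p, K'.gb p ∂μ' → μ'.real Set.univ ≤ μ.real Set.univ

/-- Metrics in the cone, Einstein or not. -/
def ScalarIntegral : Prop :=
  ∀ (m : ℕ) (M : Type) [MeasurableSpace M] (μ : Measure M) (K : CurvField m M), 1 ≤ m →
    (∀ p, NegCone (K.R p)) →
    Integrable (fun p => (- scal (K.e p) (K.R p) / (4 * Real.pi * m)) ^ m) μ →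
    0 ≤ (-1) ^ m * ∫ p, K.gb p ∂μ ∧ (-1) ^ m * ∫ p, K.gb p ∂μ ≤
      ∫ p, (- scal (K.e p) (K.R p) / (4 * Real.pi * m)) ^ m ∂μ

theorem result : Spectrum ∧ Planes ∧ Comparison ∧ Submanifolds ∧ EinsteinNegative ∧
    EinsteinPositive ∧ ConstantZero ∧ EinsteinBishop ∧ MinimalVolume ∧ ScalarIntegral := by
  refine ⟨?_, ?_, ?_, ?_, ?_, ?_, ?_, ?_, ?_, ?_⟩
  · intro m V _ _ e R hm h
    obtain ⟨k, h1, h2, -, h3⟩ := spectrum hm e h
    exact ⟨k, h1, h2, h3⟩
  · intro m V _ _ e k hk
    exact planes_values e hk
  · intro m V _ _ e R δ a hm hδ h ha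
    obtain ⟨h1, h2, h3⟩ := comparison hm e hδ h ha
    exact ⟨h1, h2, h3, (upGB_planes e h1 δ).symm⟩
  · intro V W _ _ _ _ _ E R β c δ hc hR hs hβ
    exact submanifold_cone E hc hR hs hβ
  · intro m M _ μ _ K κ δ hm hi hδ h
    exact einstein_neg hm μ K hi hδ h
  · intro m M _ μ _ K κ δ hm hi hδ h
    exact einstein_pos hm μ K hi hδ h
  · intro m a hm
    exact upGB_zero hm a
  · intro m M _ μ _ K κ hm hi hκ h hvol
    exact einstein_bishop hm μ K hi hκ h hvol
  · intro m M M' _ _ μ _ μ' _ K K' κ hm hi hκ h h' hχ
    exact minimal_volume hm μ μ' K K' hi hκ h h' hχ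
  · intro m M _ μ K hm h hi
    exact int_bound hm μ K h hi

end Pool.Agent.Results.MP_ebfab8_gt.EinsteinEulerVolume
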