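import Pool.Agent.H783.HM.Sharp

/-!
# Sharp bounds for the curvature tensor of Einstein metrics with curvature in a convex cone

Notation: `shiftT R t = R + t (constant curvature one)`, `normSq e R = |R|²` (sum over all four indices),
`ricSq e R = |Ric|²`, `scal e R` the scalar curvature, `Einstein e R κ` the condition
`Ric = (2 m - 1) κ`, `planes e k` the curvature tensor of a product of `m` planes with curvatures
`-k_1, …, -k_m`. `NegCone R` says that `R` is a finite sum of tensors of two kinds: Gauss tensors
`∑ β_k ∧ β_k - b ∧ b` of forms with `(b(x,x), β(x,x))` in the closed light cone (any codimension), and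
pullbacks of tensors whose curvature operator of the second kind is nonpositive on the symmetric tensors
which are traceless for some inner product.

* `NormBound`: in dimension `2 m ≥ 4`, `|R|² ≤ 4 |Ric|² - scal² / m` for all `R` in the cone, with
  equality for products of planes of equal curvature.
* `WeylNegative`, `WeylPositive`: if `Ric = ∓(2 m - 1) κ` and `±R + δ` is in the cone, then the Weyl
  tensor `W = R ± κ` satisfies `|W|² ≤ 8 m (m - 1) (2 m - 1) (κ - δ)²`; in particular `R` has constant
  curvature if `δ = κ`. Equality holds for the sum of a product of planes of curvature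
  `-(2 m - 1) (κ - δ)` and constant curvature `-δ`.

Proof. The Gauss–Bonnet curvatures of `R` are the elementary symmetric functions `e_j` of nonnegative
numbers (the real zeros given by the Heilmann–Lieb theorem for light cones, see
`EinsteinEulerVolume`); `e_1 = -scal` and `2 e_2 = |R|² - 4 |Ric|² + scal²`, so the bound is Newton's
inequality.
-/

set_option autoImplicit false

namespace Pool.Agent.Results.MP_ebfab8_gt.EinsteinWeylBound

open Pool.Agent.H783.HL Pool.Agent.H783.HM
open Pool.Agent.W666.GB (scal)
open Pool.Agent.W669.HD (negT)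

/-- The bound for the norm of the curvature tensor. -/
def NormBound : Prop :=
  ∀ (m : ℕ) (V : Type) [NormedAddCommGroup V] [InnerProductSpace ℝ V]
    (e : OrthonormalBasis (Fin m × Bool) ℝ V), 2 ≤ m →
    (∀ R : V → V → V → V → ℝ, NegCone R → normSq e R ≤ 4 * ricSq e R - scal e R ^ 2 / m) ∧
    ∀ a : ℝ, 0 ≤ a → NegCone (planes e fun _ => a) ∧ normSq e (planes e fun _ => a) =
      4 * ricSq e (planes e fun _ => a) - scal e (planes e fun _ => a) ^ 2 / m

/-- Einstein tensors of negative scalar curvature. -/
def WeylNegative : Prop :=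
  ∀ (m : ℕ) (V : Type) [NormedAddCommGroup V] [InnerProductSpace ℝ V]
    (e : OrthonormalBasis (Fin m × Bool) ℝ V) (R : V → V → V → V → ℝ) (κ δ : ℝ), 2 ≤ m →
    NegCone (shiftT R δ) → Einstein e R (-κ) →
    normSq e (shiftT R κ) ≤ 8 * m * (m - 1) * (2 * m - 1) * (κ - δ) ^ 2

/-- Einstein tensors of positive scalar curvature. -/
def WeylPositive : Prop :=
  ∀ (m : ℕ) (V : Type) [NormedAddCommGroup V] [InnerProductSpace ℝ V]
    (e : OrthonormalBasis (Fin m × Bool) ℝ V) (R : V → V → V → V → ℝ) (κ δ : ℝ), 2 ≤ m →
    NegCone (shiftT (negT R) δ) → Einstein e R κ →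
    normSq e (shiftT R (-κ)) ≤ 8 * m * (m - 1) * (2 * m - 1) * (κ - δ) ^ 2

/-- The bound is attained. -/
def WeylSharp : Prop :=
  ∀ (m : ℕ) (V : Type) [NormedAddCommGroup V] [InnerProductSpace ℝ V]
    (e : OrthonormalBasis (Fin m × Bool) ℝ V) (κ δ : ℝ), 2 ≤ m → δ ≤ κ →
    ∃ R : V → V → V → V → ℝ, NegCone (shiftT R δ) ∧ Einstein e R (-κ) ∧
      normSq e (shiftT R κ) = 8 * m * (m - 1) * (2 * m - 1) * (κ - δ) ^ 2

theorem result : NormBound ∧ WeylNegative ∧ WeylPositive ∧ WeylSharp := by
  refine ⟨?_, ?_, ?_, ?_⟩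
  · intro m V _ _ e hm
    exact ⟨fun R h => norm_bound (by omega) e h hm,
      fun a ha => ⟨planes_cone e fun _ => ha, planes_norm hm e ha⟩⟩
  · intro m V _ _ e R κ δ hm h hE
    exact weyl_bound hm e h hE
  · intro m V _ _ e R κ δ hm h hE
    exact weyl_bound_pos hm e h hE
  · intro m V _ _ e κ δ hm hκ
    obtain ⟨h1, h2, h3⟩ := planes_weyl hm e hκ
    exact ⟨_, h2, h1, h3⟩

end Pool.Agent.Results.MP_ebfab8_gt.EinsteinWeylBound
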