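import Pool.Agent.H349.EP.C

/-!
# Einstein metrics in dimension at least six: the Chern–Weil integrands have no sign

Notation: `AlgCurv R` says that `R` is an algebraic curvature tensor, `Einstein e R κ` is the
condition `Ric = (2 m - 1) κ` (`∑ i, R (e i) y (e i) w = (2 m - 1) κ ⟪y, w⟫`), `gbc e R` the
Gauss–Bonnet–Chern integrand in dimension `2 m` and, for a permutation `π` of the `m` curvature
factors, `pont e R π` the value on the orthonormal basis `e` of the product over the cycles of `π`
of the traces of the powers of the curvature form, up to a constant factor. The integrands of the
Pontryagin numbers are linear combinations of the `pont e R π`.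

Result: let `2 m ≥ 6`. For all `κ` and all coefficients `α`, `β π` the integrand
`α gbc + ∑ β π pont π` takes every real value on the algebraic curvature tensors with
`Ric = (2 m - 1) κ`, for `α ≠ 0` even on those with `pont π = 0` for all `π`, unless `α = 0` and it
vanishes on all of them. In particular (`α = 1`, `β = 0`) there is for all `κ` and `x` a tensor
with `Ric = (2 m - 1) κ`, `gbc = x` and `pont π = 0` for all `π`.

In dimension four `gbc ≥ 0` for `Ric = 3 κ` (Berger), and the Hitchin–Thorpe integrand is
nonnegative. So no linear inequality between the Euler number and the Pontryagin numbers of closed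
Einstein manifolds of dimension `2 m ≥ 6` can be proved pointwise from the Einstein condition, for
any sign of the Einstein constant.

Proof. Curvature tensors which are diagonal in the basis `e i ∧ e j` have vanishing Pontryagin
integrands, and their integrand `gbc` is up to a positive factor the sum over all perfect matchings
of the products of the sectional curvatures `K i j`. For two groups of `q` and `2 m - q` basis
vectors let `K = (2 m - q) / (q - 1)`, `K = q / (2 m - q - 1)` inside the groups and `K = -1`
between them. This is Ricci flat, and `gbc` has the sign `(-1) ^ q`; take `q = 2` and `q = 3`, add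
a tensor of constant curvature and use the intermediate value theorem. For `α = 0` let `R` be an
Einstein tensor at which the integrand is not zero; on the line through `R` and the tensor of
constant curvature the integrand is a polynomial which is not constant, and a reflection of the
basis changes its sign.
-/

set_option autoImplicit false

namespace Pool.Agent.Results.MP_ebfab8_gt.NoChernWeilObstruction

open Pool.Agent.H349.EP
open Pool.Agent.W666.GB (AlgCurv gbc)
open Pool.Agent.TH594.HE (Einstein)

/-- Linear combinations of the Gauss–Bonnet–Chern and the Pontryagin integrands take every value
on the Einstein tensors with given Einstein constant, or they have no Gauss–Bonnet–Chern term and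
vanish identically on these tensors. -/
def Dichotomy : Prop :=
  ∀ (m : ℕ) (V : Type) [NormedAddCommGroup V] [InnerProductSpace ℝ V]
    (e : OrthonormalBasis (Fin m × Bool) ℝ V) (κ α : ℝ) (β : Equiv.Perm (Fin m) → ℝ), 3 ≤ m →
    (∀ x : ℝ, ∃ R : V → V → V → V → ℝ, AlgCurv R ∧ Einstein e R κ ∧
      α * gbc e R + ∑ π, β π * pont e R π = x ∧ (α ≠ 0 → ∀ π, pont e R π = 0)) ∨
    (α = 0 ∧ ∀ R : V → V → V → V → ℝ, AlgCurv R → Einstein e R κ →
      ∑ π, β π * pont e R π = 0)

theorem result : Dichotomy := fun _ _ _ _ e κ α β hm => dich hm e κ α β

end Pool.Agent.Results.MP_ebfab8_gt.NoChernWeilObstruction
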